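import Mathlib
import Pool.Agent.L7h48.RT.Stm

namespace Pool.Agent.L7h26.RT
open Pool.Agent.L7h48.RT
open scoped Classical

theorem w1_nonneg (c : ℕ) (p : ℝ) (h0 : 0 ≤ p) (h1 : p ≤ 1) (s : Option (Fin c)) :
    0 ≤ w1 c p s := by
  unfold w1
  split_ifs
  · linarith
  · positivity

theorem w1_sum (c : ℕ) (hc : 0 < c) (p : ℝ) : ∑ s : Option (Fin c), w1 c p s = 1 := by
  rw [Fintype.sum_option]
  simp only [w1, if_true, reduceCtorEq, if_false]
  rw [Finset.sum_const, Finset.card_univ, Fintype.card_fin, nsmul_eq_mul]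
  have : (c : ℝ) ≠ 0 := by positivity
  field_simp
  ring

theorem E_mono {ι S : Type} [Fintype ι] [DecidableEq ι] [Fintype S] (w : S → ℝ)
    (hw : ∀ s, 0 ≤ w s) (f g : (ι → S) → ℝ) (h : ∀ x, f x ≤ g x) : E w f ≤ E w g := by
  unfold E
  apply Finset.sum_le_sum
  intro x _
  exact mul_le_mul_of_nonneg_left (h x) (Finset.prod_nonneg fun e _ => hw _)

theorem E_const {ι S : Type} [Fintype ι] [DecidableEq ι] [Fintype S] (w : S → ℝ)
    (hw : ∑ s, w s = 1) (b : ℝ) : E w (fun _ : ι → S => b) = b := by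
  unfold E
  rw [← Finset.sum_mul]
  have h := Finset.prod_univ_sum (fun _ : ι => (Finset.univ : Finset S)) (fun _ s => w s)
  rw [Fintype.piFinset_univ] at h
  rw [← h]
  simp [hw]

theorem E_add {ι S : Type} [Fintype ι] [DecidableEq ι] [Fintype S] (w : S → ℝ)
    (f g : (ι → S) → ℝ) : E w (fun x => f x + g x) = E w f + E w g := by
  unfold E
  rw [← Finset.sum_add_distrib]
  exact Finset.sum_congr rfl fun x _ => by ring

theorem ind_le_one (A : Prop) : ind A ≤ 1 := by
  unfold ind; split_ifs <;> norm_num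

theorem ind_nonneg (A : Prop) : 0 ≤ ind A := by
  unfold ind; split_ifs <;> norm_num

theorem ind_mono (A B : Prop) (h : A → B) : ind A ≤ ind B := by
  unfold ind
  by_cases hA : A
  · simp [hA, h hA]
  · simp only [hA, if_false]; split_ifs <;> norm_num

theorem s_SPR (hDET : S_DET) (hUNI : S_UNI) (hEDG : S_EDG) (hFMN : S_FMN) : S_SPR := by
  intro n c k l r p q u N hc hk hl hr hp0 hp1 hq0 hq1 hu0 hu1 hN hnl hNr
  set B : ℝ := (2 / u) ^ ((n : ℝ) / l) * (1 + u) ^ c *
    Real.exp (-(q * (k - n / l) / c * (r ^ 2 / 4 - N))) with hB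
  have hB0 : 0 ≤ B := by positivity
  have key : ∀ x : Col n c, E (w1 c q) (fun z : Col n c =>
      ind ((T (merge x z) : ℝ) < F k l x - 2 * r)) ≤ ind (N < ne x) + B := by
    intro x
    by_cases hx : N < ne x
    · have h1 : E (w1 c q) (fun z : Col n c =>
          ind ((T (merge x z) : ℝ) < F k l x - 2 * r)) ≤ 1 := by
        calc _ ≤ E (w1 c q) (fun _ : Col n c => (1 : ℝ)) :=
              E_mono _ (w1_nonneg c q hq0 hq1) _ _ (fun z => ind_le_one _)
          _ = 1 := E_const _ (w1_sum c hc q) 1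
      have h2 : ind (N < ne x) = 1 := by unfold ind; simp [hx]
      rw [h2]; linarith
    · obtain ⟨-, -, -, H, hH1, hH2, hH3⟩ := hFMN n c k l x hk hl.le
      have h1 : E (w1 c q) (fun z : Col n c =>
          ind ((T (merge x z) : ℝ) < F k l x - 2 * r)) ≤
          E (w1 c q) (fun z : Col n c => ind (Bad l r x z H)) := by
        apply E_mono _ (w1_nonneg c q hq0 hq1)
        intro z
        apply ind_mono
        intro hz
        rw [hH3] at hz
        exact hDET n c l r x z H hl hr hH1 hz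
      have h2 := hUNI n c k l r q u N x H hc hl hr hq0 hq1 hu0 hu1 hH2 (not_lt.mp hx) hnl hNr
      have h3 := ind_nonneg (N < ne x)
      linarith
  calc _ ≤ E (w1 c p) (fun x : Col n c => ind (N < ne x) + B) :=
        E_mono _ (w1_nonneg c p hp0 hp1) _ _ key
    _ = E (w1 c p) (fun x : Col n c => ind (N < ne x)) + E (w1 c p) (fun _ : Col n c => B) :=
        E_add _ _ _
    _ = E (w1 c p) (fun x : Col n c => ind (N < ne x)) + B := by
        rw [E_const _ (w1_sum c hc p) B]
    _ ≤ _ := by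
        have := hEDG n c p N hc hp0 hp1 hN
        linarith

end Pool.Agent.L7h26.RT
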